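import Pool.Agent.Helper27.WeylH

/-!
# Level sets of the growth exponent of Weyl sums

For every degree `d ≥ 2`, every exponent `α ∈ [2/3, 1)` has a level set of positive Hausdorff
dimension, so the question `MP_3c4aa6_nt` has a positive answer for every `d ≥ 2`, with the set
`[2/3, 1)`, of Lebesgue measure `1/3`.

Idea: take `x = (0, y, 0, ..., 0)`, so that the Weyl sum is the quadratic sum `∑ e(y n^2)`. For `y`
with exact irrationality exponent `τ ≥ 3`, Weyl differencing bounds the sum by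
`N^(1 - 1/τ + o(1))` for all `N`. The numbers `y` are taken from a Cantor set in base `9` with long
blocks of zero digits, so that `y` is close to rationals with denominator `9^n = (3^n)^2`, whose
Gauss sum equals `3^n`; this gives the matching lower bound for infinitely many `N`. Finally the free
digits give a Hölder map of the Cantor set onto `[0, 1]`, whence positive Hausdorff dimension.
-/

open Filter MeasureTheory

namespace Pool.Agent.Results.MP_3c4aa6_nt.LevelSetsPositiveDim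

/-- The Weyl sum `S_d(x; N) = ∑_{n = 1}^{N} exp(2 π i (x_1 n + x_2 n^2 + ⋯ + x_d n^d))`; the
coordinate `x_{j+1}` of the problem is `x j` for `j : Fin d`. -/
noncomputable def weylSum (d : ℕ) (x : EuclideanSpace ℝ (Fin d)) (N : ℕ) : ℂ :=
  ∑ n ∈ Finset.Icc 1 N,
    Complex.exp (2 * Real.pi * Complex.I * ((∑ j : Fin d, x j * (n : ℝ) ^ ((j : ℕ) + 1) : ℝ) : ℂ))

/-- The growth exponent `σ(x) = limsup_{N → ∞} log |S_d(x; N)| / log N`, computed in the extended
reals, with `log 0 = -∞`. -/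
noncomputable def growthExponent (d : ℕ) (x : EuclideanSpace ℝ (Fin d)) : EReal :=
  limsup (fun N : ℕ => ENNReal.log ‖weylSum d x N‖ₑ / ((Real.log N : ℝ) : EReal)) atTop

/-- The level set `Ω_α = {x ∈ [0,1)^d : σ(x) = α}`. -/
def levelSet (d : ℕ) (α : ℝ) : Set (EuclideanSpace ℝ (Fin d)) :=
  {x | (∀ j, x j ∈ Set.Ico (0 : ℝ) 1) ∧ growthExponent d x = (α : EReal)}

open Pool.Agent.Helper27.Weyl

/-- the vector `(0, y, 0, ..., 0)`. -/
noncomputable def vec (d : ℕ) (y : ℝ) : EuclideanSpace ℝ (Fin d) :=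
  WithLp.toLp 2 (fun j : Fin d => if (j : ℕ) = 1 then y else 0)

lemma vec_apply (d : ℕ) (y : ℝ) (j : Fin d) : vec d y j = if (j : ℕ) = 1 then y else 0 := rfl

lemma phase_vec {d : ℕ} (hd : 2 ≤ d) (y t : ℝ) :
    ∑ j : Fin d, vec d y j * t ^ ((j : ℕ) + 1) = y * t ^ 2 := by
  rw [Finset.sum_eq_single (⟨1, by omega⟩ : Fin d)]
  · rw [vec_apply]
    simp
  · intro j _ hj
    rw [vec_apply, if_neg, zero_mul]
    intro h
    apply hj
    exact Fin.ext h
  · intro h
    exact absurd (Finset.mem_univ _) h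

lemma weylSum_vec {d : ℕ} (hd : 2 ≤ d) (y : ℝ) (N : ℕ) : weylSum d (vec d y) N = Q y N := by
  unfold weylSum Q
  symm
  apply Finset.sum_nbij' (fun n => n + 1) (fun n => n - 1)
  · intro n hn
    simp only [Finset.mem_range, Finset.mem_Icc] at hn ⊢
    omega
  · intro n hn
    simp only [Finset.mem_range, Finset.mem_Icc] at hn ⊢
    omega
  · intro n _
    simp
  · intro n hn
    simp only [Finset.mem_Icc] at hn
    omega
  · intro n _
    rw [phase_vec hd]
    unfold eR
    congr 1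
    push_cast
    ring

lemma quot_le {d : ℕ} {x : EuclideanSpace ℝ (Fin d)} {N : ℕ} (hN : 2 ≤ N) {γ : ℝ}
    (h : ‖weylSum d x N‖ ≤ (N : ℝ) ^ γ) :
    ENNReal.log ‖weylSum d x N‖ₑ / ((Real.log N : ℝ) : EReal) ≤ (γ : EReal) := by
  have hN1 : (1 : ℝ) < N := by
    have : 1 < N := by omega
    exact_mod_cast this
  have hN0 : (0 : ℝ) < N := by linarith
  have hlog : 0 < Real.log N := Real.log_pos hN1
  rw [EReal.div_le_iff_le_mul (by exact_mod_cast hlog) (EReal.coe_ne_top _)]
  have h1 : ‖weylSum d x N‖ₑ ≤ ENNReal.ofReal ((N : ℝ) ^ γ) := by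
    rw [← ofReal_norm]
    exact ENNReal.ofReal_le_ofReal h
  refine (ENNReal.log_le_log h1).trans ?_
  rw [ENNReal.log_ofReal_of_pos (Real.rpow_pos_of_pos hN0 _), Real.log_rpow hN0, ← EReal.coe_mul,
    mul_comm]

lemma le_quot {d : ℕ} {x : EuclideanSpace ℝ (Fin d)} {N : ℕ} (hN : 2 ≤ N) {γ : ℝ}
    (h : (N : ℝ) ^ γ ≤ ‖weylSum d x N‖) :
    (γ : EReal) ≤ ENNReal.log ‖weylSum d x N‖ₑ / ((Real.log N : ℝ) : EReal) := by
  have hN1 : (1 : ℝ) < N := by
    have : 1 < N := by omega
    exact_mod_cast this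
  have hN0 : (0 : ℝ) < N := by linarith
  have hlog : 0 < Real.log N := Real.log_pos hN1
  rw [EReal.le_div_iff_mul_le (by exact_mod_cast hlog) (EReal.coe_ne_top _)]
  have h1 : ENNReal.ofReal ((N : ℝ) ^ γ) ≤ ‖weylSum d x N‖ₑ := by
    rw [← ofReal_norm]
    exact ENNReal.ofReal_le_ofReal h
  refine le_trans ?_ (ENNReal.log_le_log h1)
  rw [ENNReal.log_ofReal_of_pos (Real.rpow_pos_of_pos hN0 _), Real.log_rpow hN0, ← EReal.coe_mul]

lemma growthExponent_eq {d : ℕ} {x : EuclideanSpace ℝ (Fin d)} {α : ℝ}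
    (h1 : ∀ ε : ℝ, 0 < ε → ∀ᶠ N : ℕ in atTop, ‖weylSum d x N‖ ≤ (N : ℝ) ^ (α + ε))
    (h2 : ∀ ε : ℝ, 0 < ε → ∃ᶠ N : ℕ in atTop, (N : ℝ) ^ (α - ε) ≤ ‖weylSum d x N‖) :
    growthExponent d x = (α : EReal) := by
  have hup : ∀ ε : ℝ, 0 < ε → growthExponent d x ≤ ((α + ε : ℝ) : EReal) := by
    intro ε hε
    apply limsup_le_of_le (by isBoundedDefault)
    filter_upwards [h1 ε hε, eventually_ge_atTop 2] with N hN hN2
    exact quot_le hN2 hN
  have hlow : ∀ ε : ℝ, 0 < ε → ((α - ε : ℝ) : EReal) ≤ growthExponent d x := by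
    intro ε hε
    apply le_limsup_of_frequently_le _ (by isBoundedDefault)
    exact ((h2 ε hε).and_eventually (eventually_ge_atTop 2)).mono fun N hN => le_quot hN.2 hN.1
  apply le_antisymm
  · by_contra hcon
    rw [not_le, EReal.lt_iff_exists_real_btwn] at hcon
    obtain ⟨β, hβ1, hβ2⟩ := hcon
    have hαβ : α < β := by exact_mod_cast hβ1
    have h3 := hup (β - α) (by linarith)
    rw [add_sub_cancel] at h3
    exact absurd hβ2 (not_lt.mpr h3)
  · by_contra hcon
    rw [not_le, EReal.lt_iff_exists_real_btwn] at hcon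
    obtain ⟨β, hβ1, hβ2⟩ := hcon
    have hαβ : β < α := by exact_mod_cast hβ2
    have h3 := hlow (α - β) (by linarith)
    rw [sub_sub_cancel] at h3
    exact absurd hβ1 (not_lt.mpr h3)

theorem levelSet_dimH_pos {d : ℕ} (hd : 2 ≤ d) {α : ℝ} (hα : α ∈ Set.Ico (2 / 3 : ℝ) 1) :
    0 < dimH (levelSet d α) := by
  obtain ⟨hα1, hα2⟩ := hα
  have hα3 : 0 < 1 - α := by linarith
  set τ : ℝ := 1 / (1 - α) with hτ
  have hτ3 : 3 ≤ τ := by
    rw [hτ, le_div_iff₀ hα3]
    linarith
  have hατ : 1 - 1 / τ = α := by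
    rw [hτ, one_div_one_div]
    ring
  obtain ⟨C, k0, H⟩ := exists_hyp hτ3
  have hmem : ∀ g, vec d (XX τ C k0 g) ∈ levelSet d α := by
    intro g
    constructor
    · intro j
      rw [vec_apply]
      split_ifs
      · refine ⟨Real.ofDigits_nonneg _, ?_⟩
        have := ofDigits_le_eighth (DD τ C k0 g) (fun i => H.DD_le_one g i)
        unfold XX
        linarith
      · exact ⟨le_rfl, one_pos⟩
    · apply growthExponent_eq
      · intro ε hε
        have := H.upper g hε
        rw [hατ] at this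
        simpa only [weylSum_vec hd] using this
      · intro ε hε
        have := H.lower g hε
        rw [hατ] at this
        simpa only [weylSum_vec hd] using this
  -- the second coordinate is Lipschitz
  have hlip : LipschitzWith 1 (fun x : EuclideanSpace ℝ (Fin d) => x ⟨1, by omega⟩) := by
    apply LipschitzWith.of_dist_le_mul
    intro x y
    rw [NNReal.coe_one, one_mul]
    exact PiLp.dist_apply_le x y ⟨1, by omega⟩
  have h1 : Set.range (XX τ C k0) ⊆ (fun x : EuclideanSpace ℝ (Fin d) => x ⟨1, by omega⟩) '' levelSet d α := by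
    rintro _ ⟨g, rfl⟩
    refine ⟨vec d (XX τ C k0 g), hmem g, ?_⟩
    simp only [vec_apply]
    simp
  calc 0 < dimH (Set.range (XX τ C k0)) := H.dimH_range_pos
    _ ≤ dimH ((fun x : EuclideanSpace ℝ (Fin d) => x ⟨1, by omega⟩) '' levelSet d α) := dimH_mono h1
    _ ≤ dimH (levelSet d α) := hlip.dimH_image_le _

/-- **Main result.** For every `d ≥ 2` there is a measurable set `A ⊆ [0,1]` of positive Lebesgue
measure, containing the whole interval `[2/3, 1)`, all of whose elements `α` have a level set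
`Ω_α ⊆ [0,1)^d` of positive Hausdorff dimension. -/
theorem result (d : ℕ) (hd : 2 ≤ d) :
    ∃ A : Set ℝ, MeasurableSet A ∧ A ⊆ Set.Icc 0 1 ∧ Set.Ico (2 / 3 : ℝ) 1 ⊆ A ∧
      0 < volume A ∧ ∀ α ∈ A, 0 < dimH (levelSet d α) := by
  refine ⟨Set.Ico (2 / 3 : ℝ) 1, measurableSet_Ico, ?_, subset_rfl, ?_, fun α hα =>
    levelSet_dimH_pos hd hα⟩
  · intro α hα
    exact ⟨by linarith [hα.1], hα.2.le⟩
  · rw [Real.volume_Ico]
    simp only [ENNReal.ofReal_pos]
    norm_num

end Pool.Agent.Results.MP_3c4aa6_nt.LevelSetsPositiveDim
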